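import Pool.Agent.H12.NotDual

/-! `L₁ + L∞` is not isomorphic to a dual space. -/

open Set MeasureTheory

namespace Pool.Agent.Results.MP_ec556a_an.NotDual
open Pool.Agent.H12.NotDual

/-- Lebesgue measure on `(0, ∞)`. -/
noncomputable abbrev μ : Measure ℝ := volume.restrict (Ioi 0)

/-- `L₁ + L∞` as a space of classes of measurable functions. -/
noncomputable def X : Submodule ℝ (ℝ →ₘ[μ] ℝ) := Lp.LpSubmodule ℝ ℝ 1 μ ⊔ Lp.LpSubmodule ℝ ℝ ⊤ μ

/-- The norm of `L₁ + L∞`. -/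
noncomputable def nrm (x : ℝ →ₘ[μ] ℝ) : ℝ :=
  sInf {r | ∃ (u : Lp ℝ 1 μ) (v : Lp ℝ ⊤ μ), x = u.1 + v.1 ∧ r = ‖u‖ + ‖v‖}

lemma nrm_le (u : Lp ℝ 1 μ) (v : Lp ℝ ⊤ μ) : nrm (u.1 + v.1) ≤ ‖u‖ + ‖v‖ :=
  csInf_le ⟨0, by rintro _ ⟨u, v, -, rfl⟩; positivity⟩ ⟨u, v, rfl, rfl⟩

lemma dec (x : X) : {r | ∃ (u : Lp ℝ 1 μ) (v : Lp ℝ ⊤ μ), x.1 = u.1 + v.1 ∧ r = ‖u‖ + ‖v‖}.Nonempty := by
  obtain ⟨u, hu, v, hv, e⟩ := Submodule.mem_sup.mp x.2
  exact ⟨_, ⟨u, hu⟩, ⟨v, hv⟩, e.symm, rfl⟩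

lemma mu_I : μ (Ioc 0 1) = 1 := by
  rw [Measure.restrict_apply measurableSet_Ioc, inter_eq_left.mpr Ioc_subset_Ioi_self]; simp

lemma ae_le (v : Lp ℝ ⊤ μ) : ∀ᵐ s ∂μ, |v s| ≤ ‖v‖ := by
  filter_upwards [ae_le_eLpNormEssSup (f := v) (μ := μ)] with s hs
  rw [Lp.norm_def, eLpNorm_exponent_top, ← Real.norm_eq_abs, ← toReal_enorm]
  exact ENNReal.toReal_mono (by simpa using (Lp.memLp v).eLpNorm_ne_top) hs

lemma int_top (v : Lp ℝ ⊤ μ) : IntegrableOn v (Ioc 0 1) μ :=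
  Measure.integrableOn_of_bounded (M := ‖v‖) (by simp) (Lp.aestronglyMeasurable v)
    (ae_restrict_of_ae (ae_le v))

lemma int_X (x : X) : IntegrableOn x.1 (Ioc 0 1) μ := by
  obtain ⟨_, u, v, e, -⟩ := dec x
  rw [e]
  exact ((L1.integrable_coeFn u).integrableOn.add (int_top v)).congr
    (ae_restrict_of_ae (AEEqFun.coeFn_add u.1 v.1).symm)

lemma int_le (x : X) : ∫ s in Ioc 0 1, |x.1 s| ∂μ ≤ nrm x.1 := by
  refine le_csInf (dec x) ?_
  rintro _ ⟨u, v, e, rfl⟩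
  have h1 : ∫ s in Ioc 0 1, |u s| ∂μ ≤ ‖u‖ := by
    rw [L1.norm_eq_integral_norm]
    exact setIntegral_le_integral (L1.integrable_coeFn u).norm (.of_forall fun _ => abs_nonneg _)
  have h2 : ∫ s in Ioc 0 1, |v s| ∂μ ≤ ‖v‖ := by
    have := norm_setIntegral_le_of_norm_le_const_ae (μ := μ) (s := Ioc 0 1) (f := fun s => |v s|)
      (C := ‖v‖) (by simp) (ae_restrict_of_ae (by simpa using ae_le v))
    rw [measureReal_def, mu_I] at this
    exact (le_abs_self _).trans (by simpa using this)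
  refine le_trans ?_ (add_le_add h1 h2)
  rw [← integral_add (L1.integrable_coeFn u).integrableOn.abs (int_top v).abs]
  refine integral_mono_ae (int_X x).abs ((L1.integrable_coeFn u).integrableOn.abs.add (int_top v).abs)
    (ae_restrict_of_ae ?_)
  rw [e]
  filter_upwards [AEEqFun.coeFn_add u.1 v.1] with s hs
  rw [hs]
  exact abs_add_le _ _

/-- subsets of `(0,1]` of positive measure -/
abbrev P : Type := {A : Set ℝ // MeasurableSet A ∧ A ⊆ Ioc 0 1 ∧ 0 < μ A}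

lemma fin {A : Set ℝ} (h : A ⊆ Ioc 0 1) : μ A ≠ ⊤ :=
  ((measure_mono h).trans_lt (by simp)).ne

noncomputable def intA {A : Set ℝ} (h : A ⊆ Ioc 0 1) : X →ₗ[ℝ] ℝ where
  toFun x := ∫ s in A, x.1 s ∂μ
  map_add' x y := by
    rw [← integral_add ((int_X x).mono_set h) ((int_X y).mono_set h)]
    exact integral_congr_ae (ae_restrict_of_ae (AEEqFun.coeFn_add x.1 y.1))
  map_smul' c x := by
    rw [RingHom.id_apply, ← integral_smul]
    exact integral_congr_ae (ae_restrict_of_ae (AEEqFun.coeFn_smul c x.1))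

lemma split2 (A : P) : ∃ t : ℝ, 0 < μ (A.1 ∩ Iic t) ∧ 0 < μ (A.1 ∩ Ioi t) := by
  by_contra hc
  push Not at hc
  let L : Set ℝ := {t | μ (A.1 ∩ Iic t) = 0}
  have h0 : (0 : ℝ) ∈ L := by
    have : A.1 ∩ Iic 0 = ∅ := eq_empty_of_forall_notMem fun x hx =>
      absurd hx.2 (not_le.mpr (A.2.2.1 hx.1).1)
    simp [L, this]
  have hb : BddAbove L := ⟨1, fun t ht => by
    by_contra h
    have : A.1 ∩ Iic t = A.1 := inter_eq_left.mpr fun x hx => (A.2.2.1 hx).2.trans (not_le.mp h).le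
    exact A.2.2.2.ne' (this ▸ ht)⟩
  have h1 : A.1 ⊆ (⋃ q : {q : ℚ // (q : ℝ) < sSup L}, A.1 ∩ Iic (q.1 : ℝ)) ∪ {sSup L} ∪
      ⋃ q : {q : ℚ // sSup L < (q : ℝ)}, A.1 ∩ Ioi (q.1 : ℝ) := fun x hx => by
    rcases lt_trichotomy x (sSup L) with h | h | h
    · obtain ⟨q, h1, h2⟩ := exists_rat_btwn h
      exact Or.inl (Or.inl (mem_iUnion.mpr ⟨⟨q, h2⟩, hx, h1.le⟩))
    · exact Or.inl (Or.inr h)
    · obtain ⟨q, h1, h2⟩ := exists_rat_btwn h
      exact Or.inr (mem_iUnion.mpr ⟨⟨q, h1⟩, hx, h2⟩)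
  refine A.2.2.2.ne' (measure_mono_null h1 (measure_union_null (measure_union_null ?_ (by simp)) ?_))
  · refine measure_iUnion_null fun q => ?_
    obtain ⟨t, ht, h⟩ := exists_lt_of_lt_csSup ⟨0, h0⟩ q.2
    exact measure_mono_null (inter_subset_inter_right _ (Iic_subset_Iic.mpr h.le)) ht
  · refine measure_iUnion_null fun q => le_zero_iff.mp (hc _ (pos_iff_ne_zero.mpr fun h => ?_))
    exact absurd (le_csSup hb h) (not_le.mpr q.2)

lemma splitk (k : ℕ) (A : P) : ∃ B : Fin k → P, (∀ i, B i ≤ A) ∧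
    Pairwise (Function.onFun Disjoint fun i => (B i).1) := by
  induction k generalizing A with
  | zero => exact ⟨Fin.elim0, fun i => i.elim0, fun i => i.elim0⟩
  | succ k ih =>
    obtain ⟨t, h1, h2⟩ := split2 A
    obtain ⟨B, hB, hd⟩ := ih ⟨A.1 ∩ Ioi t, A.2.1.inter measurableSet_Ioi,
      inter_subset_left.trans A.2.2.1, h2⟩
    have h3 : ∀ j, Disjoint (A.1 ∩ Iic t) (B j).1 := fun j =>
      disjoint_left.mpr fun x hx hx' => (not_le.mpr (show t < x from (hB j hx').2)) hx.2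
    refine ⟨Fin.cons ⟨A.1 ∩ Iic t, A.2.1.inter measurableSet_Iic,
      inter_subset_left.trans A.2.2.1, h1⟩ B, fun i => ?_, fun i j hij => ?_⟩
    · refine Fin.cases (fun x hx => hx.1) (fun i x hx => (hB i hx).1) i
    · revert hij
      refine Fin.cases ?_ (fun i => ?_) i <;> refine Fin.cases ?_ (fun j => ?_) j <;> intro hij
      · exact absurd rfl hij
      · exact h3 j
      · exact (h3 i).symm
      · exact hd fun h => hij (congrArg Fin.succ h)

open Classical in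
noncomputable def ind (A : Set ℝ) : Lp ℝ 1 μ :=
  if h : MeasurableSet A then
    indicatorConstLp 1 (h.inter measurableSet_Ioc) (fin (A := A ∩ Ioc 0 1) inter_subset_right) 1
  else 0

lemma norm_ind {A : Set ℝ} (h : MeasurableSet A) : ‖ind A‖ = μ.real (A ∩ Ioc 0 1) := by
  rw [ind, dif_pos h, norm_indicatorConstLp (by simp) (by simp)]; simp

lemma ind_union {A B : Set ℝ} (h : MeasurableSet A) (k : MeasurableSet B) (hd : Disjoint A B) :
    ind (A ∪ B) = ind A + ind B := by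
  rw [ind, ind, ind, dif_pos h, dif_pos k, dif_pos (h.union k), ← indicatorConstLp_disjoint_union
    _ _ _ _ (hd.mono inter_subset_left inter_subset_left)]
  congr 1
  exact union_inter_distrib_right _ _ _

lemma real_pos (A : P) : 0 < μ.real A.1 := ENNReal.toReal_pos A.2.2.2.ne' (fin A.2.2.1)

lemma hahn (g : Lp ℝ 1 μ →L[ℝ] ℝ) (A : P) (a : ℝ) (h : a < (μ.real A.1)⁻¹ * g (ind A.1)) :
    ∃ B ≤ A, ∀ B' ≤ B, a ≤ (μ.real B'.1)⁻¹ * g (ind B'.1) := by
  classical
  let ν : Measure ℝ := (‖a‖₊ + ‖g‖₊) • μ.restrict (Ioc 0 1)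
  have : IsFiniteMeasure (μ.restrict (Ioc 0 1)) := isFiniteMeasure_restrict.mpr (by simp)
  let m : Set ℝ → ℝ := fun B => a * ‖ind B‖ - g (ind B)
  have hm : ∀ B, |m B| ≤ (|a| + ‖g‖) * ‖ind B‖ := fun B => by
    have h1 := g.le_opNorm (ind B)
    have h2 := abs_sub (a * ‖ind B‖) (g (ind B))
    rw [abs_mul, abs_norm] at h2
    rw [Real.norm_eq_abs] at h1
    simp only [m]; linarith
  let s : SignedMeasure ℝ := VectorMeasure.of_additive_of_le_measure m (μ := ν) (fun B => by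
      by_cases hB : MeasurableSet B
      · have := hm B
        rw [norm_ind hB] at this
        rw [← ofReal_norm, Real.norm_eq_abs]
        refine (ENNReal.ofReal_le_ofReal this).trans_eq ?_
        rw [ENNReal.ofReal_mul (by positivity), ofReal_measureReal (fin inter_subset_right)]
        simp only [ν, Measure.smul_apply, Measure.restrict_apply hB, ENNReal.smul_def, smul_eq_mul]
        congr 1
        rw [ENNReal.ofReal_add (by positivity) (by positivity), ← Real.norm_eq_abs, ofReal_norm,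
          ofReal_norm]
        rfl
      · simp [m, ind, hB])
    (fun B B' h1 h2 hd => by
      simp only [m]
      rw [norm_ind h1, norm_ind h2, norm_ind (h1.union h2), ind_union h1 h2 hd, map_add,
        union_inter_distrib_right, measureReal_union (hd.mono inter_subset_left inter_subset_left)
          (h2.inter measurableSet_Ioc) (fin inter_subset_right) (fin inter_subset_right)]
      ring)
    (fun B hB => by simp [m, ind, hB])
  have hs : ∀ B : P, s B.1 = a * μ.real B.1 - g (ind B.1) := fun B => by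
    show a * ‖ind B.1‖ - _ = _
    rw [norm_ind B.2.1, inter_eq_left.mpr B.2.2.1]
  obtain ⟨B, h1, h2, h3, h4⟩ := SignedMeasure.exists_subset_restrict_nonpos (s := s) (i := A.1) (by
    rw [hs, sub_neg, mul_comm, ← lt_inv_mul_iff₀ (real_pos A)]; exact h)
  refine ⟨⟨B, h1, h2.trans A.2.2.1, pos_iff_ne_zero.mpr fun h0 => ?_⟩, h2, fun B' hB' => ?_⟩
  · have h5 := hm B
    rw [norm_ind h1, measureReal_def, measure_mono_null inter_subset_left h0] at h5
    have : m B < 0 := h4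
    simp only [ENNReal.toReal_zero, mul_zero, abs_nonpos_iff] at h5
    linarith
  · have := VectorMeasure.subset_le_of_restrict_le_restrict _ _ h1 h3 hB'
    rw [hs] at this
    rw [le_inv_mul_iff₀ (real_pos B'), mul_comm]
    simpa using this

lemma riesz_sum {k : ℕ} (t : Fin k → ℝ) (i : Fin k) :
    ∑ ε : Fin k → Bool, sg (ε i) * (∏ j, (1 + Complex.I * (sg (ε j) * t j : ℝ))).im = 2 ^ k * t i := by
  classical
  have h := Finset.prod_univ_sum (fun _ : Fin k => (Finset.univ : Finset Bool))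
    fun j b => (if j = i then (sg b : ℂ) else 1) * (1 + Complex.I * (sg b * t j : ℝ))
  simp only [Finset.prod_mul_distrib, Finset.prod_ite_eq', Finset.mem_univ, if_true,
    Fintype.piFinset_univ] at h
  have h2 : ∀ j, ∑ b : Bool, (if j = i then (sg b : ℂ) else 1) * (1 + Complex.I * (sg b * t j : ℝ))
      = 2 * if j = i then Complex.I * t i else 1 := fun j => by
    by_cases hj : j = i
    · subst hj; simp [sg]; ring
    · simp [sg, hj]; ring
  simp only [h2, Finset.prod_mul_distrib, Finset.prod_ite_eq', Finset.mem_univ, if_true,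
    Finset.prod_const, Finset.card_univ, Fintype.card_fin] at h
  have h3 := congrArg Complex.im h
  rw [Complex.im_sum] at h3
  simp only [Complex.im_ofReal_mul] at h3
  rw [← h3, show (2 : ℂ) ^ k = ((2 ^ k : ℝ) : ℂ) by simp, Complex.im_ofReal_mul]
  simp

lemma riesz_bound {n : ℕ} (t : Fin (n ^ 2) → ℝ) (ht : ∀ j, |t j| ≤ 1 / n) :
    |(∏ j, (1 + Complex.I * (t j : ℝ))).im| ≤ 2 := by
  refine (Complex.abs_im_le_norm _).trans (abs_le_of_sq_le_sq' ?_ (by norm_num)).2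
  rw [norm_prod, ← Finset.prod_pow]
  calc ∏ j, ‖1 + Complex.I * (t j : ℝ)‖ ^ 2 ≤ ∏ _j : Fin (n ^ 2), Real.exp (1 / n ^ 2) := by
        refine Finset.prod_le_prod (fun _ _ => by positivity) fun j _ => ?_
        have h1 := Real.add_one_le_exp (1 / n ^ 2)
        have h2 : t j ^ 2 ≤ (1 / n) ^ 2 := sq_le_sq' (abs_le.mp (ht j)).1 (abs_le.mp (ht j)).2
        rw [Complex.sq_norm, Complex.normSq_apply]
        rw [div_pow, one_pow] at h2
        simp only [Complex.add_re, Complex.one_re, Complex.mul_re, Complex.I_re, Complex.ofReal_re,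
          Complex.I_im, Complex.ofReal_im, Complex.add_im, Complex.one_im, Complex.mul_im]
        nlinarith
    _ ≤ Real.exp 1 := by
        rw [Finset.prod_const, Finset.card_univ, Fintype.card_fin, ← Real.exp_nat_mul, Real.exp_le_exp]
        push_cast
        rw [mul_one_div]
        exact div_self_le_one _
    _ ≤ 2 ^ 2 := by linarith [Real.exp_one_lt_d9]

lemma orlicz {Y : Type*} [NormedAddCommGroup Y] [NormedSpace ℝ Y]
    (T : Lp ℝ ⊤ μ →L[ℝ] StrongDual ℝ Y) {M : ℝ} (hM : 0 < M) (n : ℕ) (v : Fin (n ^ 2) → Lp ℝ ⊤ μ)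
    (hv : ∀ i, ‖v i‖ ≤ M) (y : Fin (n ^ 2) → Y) :
    ∑ i, T (v i) (y i) ≤ 2 * ‖T‖ * M * n * ‖E _ y‖ := by
  rcases n.eq_zero_or_pos with rfl | hn
  · simp
  have hn' : (0 : ℝ) < n := by exact_mod_cast hn
  let g : (Fin (n ^ 2) → Bool) → ℝ → ℝ := fun ε s =>
    (∏ j, (1 + Complex.I * (sg (ε j) * (v j s / (M * n)) : ℝ))).im
  have hb : ∀ ε, ∀ᵐ s ∂μ, ‖g ε s‖ ≤ 2 := fun ε => by
    filter_upwards [ae_all_iff.mpr fun j => ae_le (v j)] with s hs
    refine riesz_bound _ fun j => ?_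
    have : |sg (ε j)| = 1 := by unfold sg; split_ifs <;> simp
    rw [abs_mul, this, one_mul, abs_div, abs_of_pos (by positivity : 0 < M * n),
      div_le_div_iff₀ (by positivity) hn']
    nlinarith [(hs j).trans (hv j)]
  have hg : ∀ ε, MemLp (g ε) ⊤ μ := fun ε => by
    refine memLp_top_of_bound (Complex.continuous_im.comp_aestronglyMeasurable ?_) 2 (hb ε)
    refine Finset.aestronglyMeasurable_fun_prod _ fun j _ => ?_
    exact (show Continuous fun r : ℝ => 1 + Complex.I * (sg (ε j) * (r / (M * n)) : ℝ) by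
      fun_prop).comp_aestronglyMeasurable (Lp.aestronglyMeasurable (v j))
  have hG : ∀ ε, ‖(hg ε).toLp‖ ≤ 2 := fun ε => by
    rw [Lp.norm_toLp, eLpNorm_exponent_top]
    exact ENNReal.toReal_le_of_le_ofReal (by norm_num) (eLpNormEssSup_le_of_ae_bound (hb ε))
  have hsum : ∀ i, ∑ ε, sg (ε i) • (hg ε).toLp = (2 ^ (n ^ 2) / (M * n)) • v i := fun i => by
    refine Lp.ext ?_
    filter_upwards [Lp.coeFn_fun_finsetSum Finset.univ fun ε => sg (ε i) • (hg ε).toLp,
      ae_all_iff.mpr fun ε : Fin (n ^ 2) → Bool => Lp.coeFn_smul (sg (ε i)) (hg ε).toLp,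
      ae_all_iff.mpr fun ε => (hg ε).coeFn_toLp,
      Lp.coeFn_smul ((2 : ℝ) ^ (n ^ 2) / (M * n)) (v i)] with s h1 h2 h3 h4
    rw [h1, h4]
    simp only [h2, Pi.smul_apply, h3, smul_eq_mul, g]
    rw [riesz_sum fun j => v j s / (M * n)]
    ring
  have h1 : (2 : ℝ) ^ (n ^ 2) / (M * n) * ∑ i, T (v i) (y i) = ∑ ε, T (hg ε).toLp (E _ y ε) := by
    rw [Finset.mul_sum]
    calc _ = ∑ i, ∑ ε, sg (ε i) * T (hg ε).toLp (y i) := Finset.sum_congr rfl fun i _ => by
          have := congrArg (fun w => T w (y i)) (hsum i)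
          simpa using this.symm
      _ = _ := by
          rw [Finset.sum_comm]
          exact Finset.sum_congr rfl fun ε _ => by simp [E]
  have h2 : ∑ ε, T (hg ε).toLp (E _ y ε) ≤ 2 ^ (n ^ 2) * (‖T‖ * 2 * ‖E _ y‖) := by
    refine (Finset.sum_le_card_nsmul _ _ (‖T‖ * 2 * ‖E _ y‖) fun ε _ => ?_).trans_eq (by simp)
    refine (le_abs_self _).trans ((T.le_opNorm₂ _ _).trans ?_)
    gcongr
    exacts [hG ε, norm_le_pi_norm _ _]
  rw [← h1, div_mul_eq_mul_div, mul_div_assoc] at h2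
  have h3 := le_of_mul_le_mul_left h2 (by positivity)
  rw [div_le_iff₀ (by positivity)] at h3
  linarith

universe u

theorem result (Y : Type u) [NormedAddCommGroup Y] [NormedSpace ℝ Y] :
    ¬ ∃ (T : X ≃ₗ[ℝ] StrongDual ℝ Y) (C : ℝ),
      ∀ x : X, ‖T x‖ ≤ C * nrm x.1 ∧ nrm x.1 ≤ C * ‖T x‖ := by
  rintro ⟨T, C₀, hT₀⟩
  have hn0 : ∀ x : X, 0 ≤ nrm x.1 := fun x =>
    le_trans (integral_nonneg fun _ => abs_nonneg _) (int_le x)
  obtain ⟨C, hC, hT⟩ : ∃ C : ℝ, 0 < C ∧ ∀ x : X, ‖T x‖ ≤ C * nrm x.1 ∧ nrm x.1 ≤ C * ‖T x‖ :=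
    ⟨max C₀ 1, by positivity, fun x => ⟨(hT₀ x).1.trans
      (mul_le_mul_of_nonneg_right (le_max_left _ _) (hn0 x)), (hT₀ x).2.trans
      (mul_le_mul_of_nonneg_right (le_max_left _ _) (norm_nonneg _))⟩⟩
  let i₁ : Lp ℝ 1 μ →ₗ[ℝ] X := Submodule.inclusion (le_sup_left : Lp.LpSubmodule ℝ ℝ 1 μ ≤ X)
  let i₂ : Lp ℝ ⊤ μ →ₗ[ℝ] X := Submodule.inclusion (le_sup_right : Lp.LpSubmodule ℝ ℝ ⊤ μ ≤ X)
  have b₁ : ∀ u, ‖T (i₁ u)‖ ≤ C * ‖u‖ := fun u => (hT _).1.trans (by
    gcongr; show nrm u.1 ≤ _; simpa using nrm_le u 0)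
  have b₂ : ∀ v, ‖T (i₂ v)‖ ≤ C * ‖v‖ := fun v => (hT _).1.trans (by
    gcongr; show nrm v.1 ≤ _; simpa using nrm_le 0 v)
  let T₁ : Lp ℝ 1 μ →L[ℝ] StrongDual ℝ Y := (T.toLinearMap ∘ₗ i₁).mkContinuous C b₁
  let T₂ : Lp ℝ ⊤ μ →L[ℝ] StrongDual ℝ Y := (T.toLinearMap ∘ₗ i₂).mkContinuous C b₂
  have : Nonempty P := ⟨⟨Ioc 0 1, measurableSet_Ioc, subset_rfl, by simp⟩⟩
  have : Fact ((1 : ENNReal) ≠ ⊤) := ⟨by simp⟩
  refine core (P := P) (fun A => (μ.real A.1)⁻¹ • T₁ (ind A.1)) (C := C) (K := C)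
    (M := 2 * ‖T₂‖ * (C * C + 1)) hC (by positivity) (fun A => ?_) (fun A y a h => ?_)
    (fun A k => ?_) T₁ (T₂ '' Metric.closedBall 0 (C * C + 1)) (fun n ζ hζ y => ?_) fun φ hφ => ?_
  · have := b₁ (ind A.1)
    rw [norm_ind A.2.1, inter_eq_left.mpr A.2.2.1] at this
    rw [norm_smul, norm_inv, Real.norm_of_nonneg (real_pos A).le, inv_mul_le_iff₀ (real_pos A),
      mul_comm]
    exact this
  · exact hahn (T₁.flip y) A a h
  · obtain ⟨B, hB, hd⟩ := splitk k A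
    refine ⟨B, fun i => intA (B i).2.2.1 ∘ₗ T.symm.toLinearMap, hB, fun i => ?_, fun ε ξ => ?_⟩
    · rw [map_smul]
      have : (intA (B i).2.2.1 ∘ₗ T.symm.toLinearMap) (T₁ (ind (B i).1)) = μ.real (B i).1 := by
        show intA (B i).2.2.1 (T.symm (T (i₁ (ind (B i).1)))) = _
        rw [T.symm_apply_apply]
        show ∫ s in (B i).1, ind (B i).1 s ∂μ = _
        rw [ind, dif_pos (B i).2.1, setIntegral_indicatorConstLp (B i).2.1,
          inter_eq_left.mpr (B i).2.2.1, inter_self, smul_eq_mul, mul_one]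
      rw [this, smul_eq_mul, inv_mul_cancel₀ (real_pos _).ne']
    · obtain ⟨x, rfl⟩ := T.surjective ξ
      refine le_trans ?_ ((int_le x).trans (hT x).2)
      calc _ ≤ ∑ i, ∫ s in (B i).1, |x.1 s| ∂μ := Finset.sum_le_sum fun i _ => by
            show sg (ε i) * intA (B i).2.2.1 (T.symm (T x)) ≤ _
            rw [T.symm_apply_apply]
            have h1 : |intA (B i).2.2.1 x| ≤ ∫ s in (B i).1, |x.1 s| ∂μ := abs_integral_le_integral_abs
            have : |sg (ε i)| = 1 := by unfold sg; split_ifs <;> simp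
            refine (le_abs_self _).trans ?_
            rwa [abs_mul, this, one_mul]
        _ = ∫ s in ⋃ i, (B i).1, |x.1 s| ∂μ := (integral_iUnion_fintype (fun i => (B i).2.1) hd
            fun i => ((int_X x).mono_set (B i).2.2.1).abs).symm
        _ ≤ _ := setIntegral_mono_set (int_X x).abs (.of_forall fun _ => abs_nonneg _)
            (iUnion_subset fun i => (B i).2.2.1).eventuallyLE
  · choose v hv e using hζ
    simp only [← e]
    exact orlicz T₂ (by positivity) n v (fun i => by simpa using hv i) y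
  · obtain ⟨x, rfl⟩ := T.surjective φ
    have h1 : nrm x.1 < C * C + 1 := by nlinarith [(hT x).2]
    obtain ⟨_, ⟨u, v, e, rfl⟩, h2⟩ := exists_lt_of_csInf_lt (dec x) h1
    refine ⟨u, _, ⟨v, by simpa using by linarith [norm_nonneg u], rfl⟩, ?_⟩
    show T x = T (i₁ u) + T (i₂ v)
    rw [← map_add]
    exact congrArg T (Subtype.ext e)

end Pool.Agent.Results.MP_ec556a_an.NotDual
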